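import Mathlib
import Pool.Agent.H392Z.MO.Spec2

/-!
Task E4 of the interface `Pool.Agent.H392Z.MO.Spec2`.
-/

set_option autoImplicit false

open Filter Topology Finset

namespace Pool.Agent.H172Z.MoE4

open Pool.Agent.H392Z.MO

theorem phi_nonneg (ε t : ℝ) (ht : 0 ≤ t) : 0 ≤ phi ε t := by
  unfold phi
  positivity

theorem phi_mul (ε s t : ℝ) (hs : 0 < s) (ht : 0 < t) (h1 : 2 ≤ Real.log s)
    (h2 : 2 ≤ Real.log t) : phi ε s * phi ε t ≤ phi ε (s * t) := by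
  unfold phi
  rw [div_mul_div_comm, ← Real.mul_rpow hs.le ht.le, Real.log_mul hs.ne' ht.ne', ← mul_pow]
  refine div_le_div_of_nonneg_left (by positivity) (by positivity) ?_
  refine pow_le_pow_left₀ (by linarith) ?_ 2
  nlinarith

theorem g_le_phi {A κ σ ε : ℝ} {M : Set ℕ} {i₁ : ℕ} {g : ℕ → ℝ} (hg : Adm A κ σ ε M i₁ g)
    (hy : Real.exp 2 ≤ tt A i₁ ^ σ) :
    ∀ a : ℕ, 2 ≤ a → (∀ p : ℕ, p.Prime → p ∣ a → ¬ IsH A κ σ M i₁ p) → g a ≤ phi ε a := by
  intro a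
  induction a using Nat.strong_induction_on with
  | _ a ih =>
    intro ha hp
    have h1 : a.minFac.Prime := Nat.minFac_prime (by omega)
    obtain ⟨b, hb⟩ := Nat.minFac_dvd a
    have hb0 : 0 < b := by
      rcases Nat.eq_zero_or_pos b with h | h
      · rw [h] at hb; omega
      · exact h
    by_cases hb1 : b = 1
    · have h2 : a = a.minFac := by rw [hb1, mul_one] at hb; exact hb
      have h3 := hg.normal _ h1 (hp _ h1 (Nat.minFac_dvd a))
      rw [← h2] at h3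
      exact h3
    have hb2 : 2 ≤ b := by omega
    have hmul : g a = g a.minFac * g b := by
      rw [← hg.mul _ _ h1.pos hb0, ← hb]
    by_cases hs : (a.minFac : ℝ) ≤ tt A i₁ ^ σ
    · rw [hmul, hg.small _ h1 hs, zero_mul]
      exact phi_nonneg _ _ (Nat.cast_nonneg _)
    have hs' : Real.exp 2 ≤ (a.minFac : ℝ) := le_trans hy (not_le.1 hs).le
    have hl : 2 ≤ Real.log a.minFac := by
      rw [Real.le_log_iff_exp_le (by exact_mod_cast h1.pos)]
      exact hs'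
    have hba : b ∣ a := Dvd.intro_left _ hb.symm
    have hle : a.minFac ≤ b := Nat.minFac_le_of_dvd hb2 hba
    have hl2 : 2 ≤ Real.log b :=
      le_trans hl (Real.log_le_log (by exact_mod_cast h1.pos) (by exact_mod_cast hle))
    have hlt : b < a := by
      have := h1.two_le
      nlinarith
    have h4 := ih b hlt hb2 fun p h5 h6 => hp p h5 (h6.trans hba)
    have h5 := hg.normal _ h1 (hp _ h1 (Nat.minFac_dvd a))
    have h6 : (a : ℝ) = (a.minFac : ℝ) * b := by exact_mod_cast hb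
    rw [hmul, h6]
    refine le_trans ?_ (phi_mul ε _ _ (by exact_mod_cast h1.pos) (by exact_mod_cast hb0) hl hl2)
    exact mul_le_mul h5 h4 (hg.nonneg _) (phi_nonneg _ _ (Nat.cast_nonneg _))

theorem card_mult (t u : ℝ) (ht : 0 ≤ t) (htu : t ≤ u) (d : ℕ) (hd : 0 < d) :
    (((Finset.Ico ⌈t⌉₊ ⌈u⌉₊).filter (fun n => d ∣ n)).card : ℝ) ≤ (u - t) / d + 1 := by
  have hd' : (0 : ℝ) < d := by exact_mod_cast hd
  have h1 : (Finset.Ico ⌈t⌉₊ ⌈u⌉₊).filter (fun n => d ∣ n) ⊆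
      (Finset.Ico ⌈t / d⌉₊ ⌈u / d⌉₊).image (fun k => d * k) := by
    intro n hn
    rw [Finset.mem_filter, Finset.mem_Ico, Nat.ceil_le, Nat.lt_ceil] at hn
    obtain ⟨⟨h2, h3⟩, k, rfl⟩ := hn
    refine Finset.mem_image.2 ⟨k, ?_, rfl⟩
    rw [Finset.mem_Ico, Nat.ceil_le, Nat.lt_ceil, div_le_iff₀ hd', lt_div_iff₀ hd']
    push_cast at h2 h3
    constructor <;> linarith
  have h2 := (Finset.card_le_card h1).trans Finset.card_image_le
  rw [Nat.card_Ico] at h2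
  have h3 : ⌈t / d⌉₊ ≤ ⌈u / d⌉₊ := Nat.ceil_mono (by gcongr)
  have h4 : (((Finset.Ico ⌈t⌉₊ ⌈u⌉₊).filter (fun n => d ∣ n)).card : ℝ) ≤
      (⌈u / d⌉₊ : ℝ) - ⌈t / d⌉₊ := by
    rw [← Nat.cast_sub h3]; exact_mod_cast h2
  have h5 : (⌈u / d⌉₊ : ℝ) < u / d + 1 := Nat.ceil_lt_add_one (by
    have : 0 ≤ u := ht.trans htu
    positivity)
  have h6 : t / d ≤ (⌈t / d⌉₊ : ℝ) := Nat.le_ceil _
  rw [sub_div]
  linarith

theorem tt_step {A : ℝ} (hA : A ≤ 2) {i : ℕ} (hi : 1 ≤ i) :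
    tt A (i + 1) - tt A i ≤ 3 * HH A i := by
  have h0 : (1 : ℝ) ≤ i := by exact_mod_cast hi
  have h0' : (0 : ℝ) < i := by linarith
  unfold tt HH
  push_cast
  have h1 : ((i : ℝ) + 1) ^ A = ((i : ℝ) + 1) ^ (A - 2) * ((i : ℝ) + 1) ^ 2 := by
    rw [← Real.rpow_natCast, ← Real.rpow_add (by linarith)]
    norm_num
  have h2 : ((i : ℝ) + 1) ^ (A - 2) ≤ (i : ℝ) ^ (A - 2) :=
    Real.rpow_le_rpow_of_nonpos h0' (by linarith) (by linarith)
  have h3 : (i : ℝ) ^ A = (i : ℝ) ^ (A - 2) * (i : ℝ) ^ 2 := by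
    rw [← Real.rpow_natCast, ← Real.rpow_add h0']
    norm_num
  have h4 : (i : ℝ) ^ (A - 1) = (i : ℝ) ^ (A - 2) * (i : ℝ) := by
    rw [← Real.rpow_add_one h0'.ne']
    congr 1
    ring
  have h5 : 0 < (i : ℝ) ^ (A - 2) := Real.rpow_pos_of_pos h0' _
  rw [h1, h3, h4]
  have h6 : ((i : ℝ) + 1) ^ (A - 2) * ((i : ℝ) + 1) ^ 2 ≤ (i : ℝ) ^ (A - 2) * ((i : ℝ) + 1) ^ 2 := by
    gcongr
  nlinarith [mul_nonneg h5.le (sub_nonneg.2 h0)]

theorem pt_bound {A κ σ ε : ℝ} {M : Set ℕ} {i₁ : ℕ} {g : ℕ → ℝ} (hg : Adm A κ σ ε M i₁ g)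
    (hy : Real.exp 2 ≤ tt A i₁ ^ σ) (he : ε ≤ 1) {i : ℕ} (hz : 1 < tt A i) {n : ℕ}
    (hn : n ∈ Smo A κ σ M i₁ i) :
    ∃ d ∈ Finset.Icc 1 ⌊tt A i ^ (1 / 10 : ℝ)⌋₊, d ∣ n ∧
      g n ≤ g d * (d : ℝ) ^ (1 - ε) * (tt A i ^ (ε - 1) * (20 / Real.log (tt A i)) ^ 4) := by
  classical
  unfold Smo at hn
  rw [Finset.mem_filter] at hn
  obtain ⟨h1, d, a, b, rfl, h2, h3, h4, h5⟩ := hn
  unfold B at h1
  rw [Finset.mem_Ico, Nat.ceil_le] at h1
  set z := tt A i with hzdef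
  have hz0 : 0 < z := by linarith
  have h6 : 1 < z ^ (1 / 20 : ℝ) := Real.one_lt_rpow hz (by norm_num)
  have ha : 2 ≤ a := by
    have : (1 : ℝ) < a := lt_of_lt_of_le h6 h3
    have : 1 < a := by exact_mod_cast this
    omega
  have hb : 2 ≤ b := by
    have : (1 : ℝ) < b := lt_of_lt_of_le h6 h4
    have : 1 < b := by exact_mod_cast this
    omega
  have hd : 0 < d := by
    rcases Nat.eq_zero_or_pos d with h | h
    · have := h1.1
      rw [h] at this
      simp at this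
      linarith
    · exact h
  have hd' : (0 : ℝ) < d := by exact_mod_cast hd
  have ha' : (0 : ℝ) < a := by exact_mod_cast (by omega : 0 < a)
  have hb' : (0 : ℝ) < b := by exact_mod_cast (by omega : 0 < b)
  refine ⟨d, Finset.mem_Icc.2 ⟨hd, Nat.le_floor h2⟩, ⟨a * b, by ring⟩, ?_⟩
  have g1 := g_le_phi hg hy a ha fun p h7 h8 => h5 p h7 (h8.mul_right b)
  have g2 := g_le_phi hg hy b hb fun p h7 h8 => h5 p h7 (h8.mul_left a)
  rw [hg.mul _ _ (by positivity) (by omega), hg.mul _ _ hd (by omega), mul_assoc, mul_assoc]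
  refine mul_le_mul_of_nonneg_left ?_ (hg.nonneg d)
  have hL : 0 < Real.log z := Real.log_pos hz
  have l1 : Real.log z / 20 ≤ Real.log a := by
    have := Real.log_le_log (by linarith) h3
    rw [Real.log_rpow hz0] at this
    linarith
  have l2 : Real.log z / 20 ≤ Real.log b := by
    have := Real.log_le_log (by linarith) h4
    rw [Real.log_rpow hz0] at this
    linarith
  have l3 : ((a : ℝ) * b) ^ (ε - 1) ≤ (d : ℝ) ^ (1 - ε) * z ^ (ε - 1) := by
    have h7 : z / d ≤ (a : ℝ) * b := by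
      rw [div_le_iff₀ hd']
      have := h1.1
      push_cast at this
      linarith
    refine (Real.rpow_le_rpow_of_nonpos (by positivity) h7 (by linarith)).trans (le_of_eq ?_)
    rw [Real.div_rpow hz0.le hd'.le, div_eq_mul_inv, ← Real.rpow_neg hd'.le, mul_comm]
    congr 2
    ring
  calc g a * g b ≤ phi ε a * phi ε b :=
        mul_le_mul g1 g2 (hg.nonneg _) (phi_nonneg _ _ (Nat.cast_nonneg _))
    _ = ((a : ℝ) * b) ^ (ε - 1) / (Real.log a * Real.log b) ^ 2 := by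
        unfold phi
        rw [div_mul_div_comm, ← Real.mul_rpow ha'.le hb'.le, ← mul_pow]
    _ ≤ (d : ℝ) ^ (1 - ε) * z ^ (ε - 1) / (Real.log z / 20 * (Real.log z / 20)) ^ 2 := by
        refine div_le_div₀ (by positivity) l3 (by positivity) ?_
        refine pow_le_pow_left₀ (by positivity) ?_ 2
        exact mul_le_mul l1 l2 (by positivity) (le_trans (by positivity) l1)
    _ = (d : ℝ) ^ (1 - ε) * (z ^ (ε - 1) * (20 / Real.log z) ^ 4) := by
        field_simp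

theorem e4 : Pool.Agent.H392Z.MO.S_E4 := by
  classical
  intro A κ σ ε μ M hP hG θ hθ
  obtain ⟨j₀, hj⟩ := hG 1 one_pos
  have hσ := hP.s_pos
  have hσ1 : σ ≤ 1 / 100 := hP.s_le.trans hP.k_le
  have hA1 : 3 / 2 ≤ A := by linarith [hP.A_ge]
  have hA2 := hP.A_lt
  have hε1 : ε ≤ 1 := by linarith [hP.e_le]
  refine ⟨max j₀ ⌈Real.exp (max (2 / σ) (8 * 20 ^ 4 / θ))⌉₊, fun i₁ h1 g hg i hi => ?_⟩
  have hlog : ∀ k : ℕ, i₁ ≤ k → 0 < (k : ℝ) ∧ max (2 / σ) (8 * 20 ^ 4 / θ) ≤ Real.log k := by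
    intro k hk
    have h2 : Real.exp (max (2 / σ) (8 * 20 ^ 4 / θ)) ≤ k :=
      Nat.ceil_le.1 ((le_max_right _ _).trans (h1.trans hk))
    have h3 : (0 : ℝ) < k := lt_of_lt_of_le (Real.exp_pos _) h2
    exact ⟨h3, (Real.le_log_iff_exp_le h3).2 h2⟩
  have hy : Real.exp 2 ≤ tt A i₁ ^ σ := by
    obtain ⟨h2, h3⟩ := hlog i₁ le_rfl
    have h4 : 2 / σ ≤ Real.log i₁ := (le_max_left _ _).trans h3
    rw [div_le_iff₀ hσ] at h4
    unfold tt
    rw [← Real.rpow_mul h2.le, Real.rpow_def_of_pos h2, Real.exp_le_exp]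
    have h5 : 0 ≤ Real.log i₁ * σ := by linarith
    nlinarith
  obtain ⟨hi0, hi1⟩ := hlog i hi
  have hL1 : 8 * 20 ^ 4 / θ ≤ Real.log i := (le_max_right _ _).trans hi1
  have hL : 0 < Real.log i := lt_of_lt_of_le (by positivity) hL1
  have hi2 : (1 : ℝ) < i := by
    by_contra h
    have := Real.log_nonpos hi0.le (not_lt.1 h)
    linarith
  have hi3 : 1 ≤ i := by exact_mod_cast hi2.le
  have hz : 1 < tt A i := Real.one_lt_rpow hi2 (by linarith)
  have hlz : Real.log (tt A i) = A * Real.log i := Real.log_rpow hi0 A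
  have hH : 0 < HH A i := Real.rpow_pos_of_pos hi0 _
  have hDH : tt A i ^ (1 / 10 : ℝ) ≤ HH A i := by
    unfold tt HH
    rw [← Real.rpow_mul hi0.le]
    exact Real.rpow_le_rpow_of_exponent_le hi2.le (by linarith)
  set K := tt A i ^ (ε - 1) * (20 / Real.log (tt A i)) ^ 4 with hK
  have hK0 : 0 ≤ K := by
    have : 0 < tt A i := by linarith
    positivity
  set D := ⌊tt A i ^ (1 / 10 : ℝ)⌋₊ with hD
  have hw : ∀ d : ℕ, 0 ≤ g d * (d : ℝ) ^ (1 - ε) * K := fun d =>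
    mul_nonneg (mul_nonneg (hg.nonneg d) (by positivity)) hK0
  have s1 : ∑ n ∈ Smo A κ σ M i₁ i, g n ≤
      ∑ n ∈ B A i, ∑ d ∈ Finset.Icc 1 D, if d ∣ n then g d * (d : ℝ) ^ (1 - ε) * K else 0 := by
    refine le_trans (Finset.sum_le_sum fun n hn => ?_)
      (Finset.sum_le_sum_of_subset_of_nonneg (s := Smo A κ σ M i₁ i) (Finset.filter_subset _ _)
        fun n _ _ => Finset.sum_nonneg fun d _ => by split_ifs; exacts [hw d, le_rfl])
    obtain ⟨d, h2, h3, h4⟩ := pt_bound hg hy hε1 hz hn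
    refine h4.trans (le_trans (le_of_eq ?_) (Finset.single_le_sum
      (f := fun d => if d ∣ n then g d * (d : ℝ) ^ (1 - ε) * K else 0)
      (fun d _ => by split_ifs; exacts [hw d, le_rfl]) h2))
    simp only [if_pos h3, hK]
  have s2 : ∀ d ∈ Finset.Icc 1 D, (∑ n ∈ B A i, if d ∣ n then g d * (d : ℝ) ^ (1 - ε) * K else 0) ≤
      4 * HH A i * K * (g d * (d : ℝ) ^ (-ε)) := by
    intro d hd
    rw [Finset.mem_Icc] at hd
    have hd0 : (0 : ℝ) < d := by exact_mod_cast hd.1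
    have hd1 : (d : ℝ) ≤ HH A i := by
      refine le_trans ?_ hDH
      exact (Nat.le_floor_iff (Real.rpow_nonneg (by linarith) _)).1 hd.2
    rw [← Finset.sum_filter, Finset.sum_const, nsmul_eq_mul]
    have h2 := card_mult (tt A i) (tt A (i + 1)) (by linarith)
      (by unfold tt; push_cast; exact Real.rpow_le_rpow hi0.le (by linarith) (by linarith)) d hd.1
    have h3 := tt_step hA2.le hi3
    have h4 : (((B A i).filter (fun n => d ∣ n)).card : ℝ) ≤ 4 * HH A i / d := by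
      refine h2.trans ?_
      rw [le_div_iff₀ hd0, add_mul, div_mul_cancel₀ _ hd0.ne']
      linarith
    refine (mul_le_mul_of_nonneg_right h4 (hw d)).trans (le_of_eq ?_)
    have h5 : (d : ℝ) ^ (1 - ε) = d * (d : ℝ) ^ (-ε) := by
      rw [sub_eq_add_neg, Real.rpow_add hd0, Real.rpow_one]
    rw [h5]
    field_simp
  have s3 : ∑ d ∈ Finset.Icc 1 D, g d * (d : ℝ) ^ (-ε) ≤ 2 := by
    have h2 := hj i₁ ((le_max_left _ _).trans h1) g hg D
    have h3 : Finset.Icc 1 D ⊆ insert 1 (Finset.Icc 2 D) := by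
      intro d hd
      rw [Finset.mem_Icc] at hd
      rw [Finset.mem_insert, Finset.mem_Icc]
      omega
    refine (Finset.sum_le_sum_of_subset_of_nonneg h3
      fun d _ _ => mul_nonneg (hg.nonneg d) (by positivity)).trans ?_
    rw [Finset.sum_insert (by simp), hg.one]
    simp only [Nat.cast_one, Real.one_rpow]
    linarith
  rw [Finset.sum_comm] at s1
  have s4 := s1.trans (Finset.sum_le_sum s2)
  rw [← Finset.mul_sum] at s4
  refine s4.trans ((mul_le_mul_of_nonneg_left s3 (by positivity)).trans ?_)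
  rw [hK]
  unfold phi
  rw [hlz]
  have hz1 : 0 < tt A i ^ (ε - 1) := Real.rpow_pos_of_pos (by linarith) _
  rw [div_le_iff₀ hθ] at hL1
  have hA0 : 0 < A := by linarith
  have key : 8 * 20 ^ 4 ≤ θ * (A ^ 2 * Real.log i) := by
    have : 1 ≤ A ^ 2 := by nlinarith
    nlinarith [mul_pos hL hθ]
  have e1 : 4 * HH A i * (tt A i ^ (ε - 1) * (20 / (A * Real.log i)) ^ 4) * 2 =
      (8 * 20 ^ 4) * (HH A i * tt A i ^ (ε - 1) / (A * Real.log i) ^ 4) := by
    field_simp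
    ring
  have e2 : θ * (tt A i ^ (ε - 1) / (A * Real.log i) ^ 2) * HH A i / Real.log i =
      (θ * (A ^ 2 * Real.log i)) * (HH A i * tt A i ^ (ε - 1) / (A * Real.log i) ^ 4) := by
    field_simp
  rw [e1, e2]
  exact mul_le_mul_of_nonneg_right key (by positivity)

end Pool.Agent.H172Z.MoE4
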